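import Pool.Agent.Work.MP_6b8b27_co.Main

namespace Pool.Agent.Results.MP_6b8b27_co.HamUnion

open Pool.Agent.Work.MP_6b8b27_co

/-- For every `n ≥ 3` the largest size of a pairwise Hamiltonian-cycle-different family of
Hamiltonian paths on `n` vertices is `n.choose 2`. -/
theorem result : ∀ n : ℕ, 3 ≤ n → h n = n.choose 2 :=
  main

end Pool.Agent.Results.MP_6b8b27_co.HamUnion
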